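import Pool.Agent.Lib.L8.PR.Stm
import Pool.Agent.Lib.L1S.PQ.Main
import Pool.Agent.Lib.L8.PE8

/-!
# L8: the equivalence of the two forms of the statement
-/

namespace Pool.Agent.Lib.L8.PR

open MeasureTheory Matrix NumberField IsDedekindDomain Pool.Agent.Lib.L1S.PQ

noncomputable section

variable {ι M N : Type} [Fintype ι] [DecidableEq ι] [AddCommGroup M] [Module ℚ M] [AddCommGroup N] [Module ℚ N]
  {P : RootPairing ι ℚ M N} [P.IsCrystallographic] {b : P.Base} {K L : Type} [Field K] [NumberField K] [Field L] [NumberField L] [Algebra K L] (Q : QS b K L)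

/-- The archimedean absolute values. -/
abbrev nrL (L : Type) [Field L] [NumberField L] : InfinitePlace L → mixedEmbedding.mixedSpace L → ℝ := fun w z => mixedEmbedding.normAtPlace w z

/-- The multiplicities. -/
abbrev eL (L : Type) [Field L] [NumberField L] : InfinitePlace L → ℕ := fun w => w.mult

theorem nm_eq (z : mixedEmbedding.mixedSpace L) : nm (nrL L) (eL L) z = mixedEmbedding.norm z := (mixedEmbedding.norm_apply z).symm

variable (𝔫 : Ideal (𝓞 K)) (v : HeightOneSpectrum (𝓞 K)) (r s : ℕ)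

section

variable [P.IsRootSystem]

theorem szT_of {a : ι → (mixedEmbedding.mixedSpace L)ˣ} {Rb : b.support → ℝ}
    (h : SzT b (((Ideal.absNorm 𝔫 : ℝ) * (Ideal.absNorm v.asIdeal : ℝ) ^ (r + s)) ^ Module.finrank K L) (fun i => ∏ β ∈ Phi b i, nm (nrL L) (eL L) (a β : mixedEmbedding.mixedSpace L)) Rb) :
    L8.SzT b L 𝔫 v r s a Rb := by
  intro i j hO
  have e : ∀ i j : b.support, L8.Ea b a i j = (∏ β ∈ Phi b i, nm (nrL L) (eL L) (a β : mixedEmbedding.mixedSpace L)) * ∏ β ∈ Phi b j, nm (nrL L) (eL L) (a β : mixedEmbedding.mixedSpace L) := by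
    intro i j
    simp only [nm_eq]
    rfl
  rcases h i j hO with h1 | ⟨l, T, hT, h1⟩
  · refine Or.inl (h1.trans (le_of_eq ?_))
    rw [e, ← pow_mul, ← pow_mul, mul_comm (Module.finrank K L)]
    rfl
  · refine Or.inr ⟨l, T, hT, h1.trans (le_of_eq ?_)⟩
    rw [e]
    refine congrArg (· * _) ?_
    have e2 : ∀ (y : ℝ) (f : ℕ) (z : ℤ), (y ^ f) ^ z = (y ^ z) ^ f := by
      intro y f z
      rw [← zpow_natCast, ← zpow_natCast, ← _root_.zpow_mul, ← _root_.zpow_mul, mul_comm]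
    exact e2 _ _ _

/-- **The statement** follows from `StatementT`. -/
theorem est_of (h : L8.StatementT (old Q)) :
    EstTCl K (h0 b) (GQ Q) (mixedEmbedding L) (fun i => (Sum.inl i, Sum.inr (P.reflectionPerm i i))) (fun s => sp (Q.da s)) (nrL L) (eL L) (fun i => (Phi b i).card) (AdmT b L (nrL L) (eL L)) := by
  intro m1 hm1 m2 hm2 μ hμ φ hφ cφ Ω hΩ
  obtain rfl : m1 = borel _ := hm1.measurable_eq
  obtain rfl : m2 = borel _ := hm2.measurable_eq
  obtain ⟨C, hC⟩ := @h μ hμ φ hφ cφ Ω hΩ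
  refine ⟨C, ?_⟩
  rintro v 𝔫 h𝔫 hv r s θ hθ t x d ht ⟨u, ω, hω, hx⟩ ρ w S Λ ⟨hfin, hcpt, hsupp, hmeas, hbdd, hnorm⟩ B hB m X ⟨a, rfl, hsz, rfl⟩ ν hν D hD M' F hF horth κ hκ D' hD'
  have hθ' := genQ_of Q 𝔫 v r s hθ
  rw [gam_eq] at hD hF hD'
  -- the entries of `t` are units
  have hu : ∀ β, a β * (t⁻¹).1.1.1 (Sum.inr β) (Sum.inr β) = 1 := by
    intro β
    have h1 : t.1.1.1 * (t⁻¹).1.1.1 = 1 := t.1.1.mul_inv
    have h2 := congrFun (congrFun h1 (Sum.inr β)) (Sum.inr β)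
    rw [ht, Matrix.diagonal_mul, Matrix.one_apply_eq] at h2
    exact h2
  let a' : ι → (mixedEmbedding.mixedSpace L)ˣ := fun β => Units.mkOfMulEqOne _ _ (hu β)
  have ha' : ∀ β, (a' β : mixedEmbedding.mixedSpace L) = a β := fun β => rfl
  have k1 := hC v 𝔫 h𝔫 hv r s θ hθ' t a' ht x ⟨u, ω, hω, by rw [hx]; rfl⟩
  have k2 := @k1 ρ hfin S hcpt hsupp w hmeas hbdd Λ hnorm B hB.1 hB.2 m (szT_of (a := a') 𝔫 v r s hsz)
  have key := @k2 ν hν D hD M' F (fun l => aut_of Q 𝔫 v r s (hF l)) horth κ hκ D' hD'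
  refine key.trans (le_of_eq ?_)
  simp only [nm_eq]
  rfl

/-- The density theorem at the archimedean places follows from `StatementT`. -/
theorem archDensity_of (h : L8.StatementT (old Q)) : ArchDensity Q := est_of Q h

/-- **The density theorem at the archimedean places**. -/
theorem archDensity [P.IsReduced] [P.IsIrreducible] [IsGalois K L] : ArchDensity Q := archDensity_of Q (L8.statementT (old Q))

end

end

end Pool.Agent.Lib.L8.PR
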