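import Pool.Agent.Lib.L1S.PQ.Stm

/-!
# The density theorem at the archimedean places for the globally generic spectrum of every quasi-split group: the statement

The groups, the levels, the characters and the Whittaker coefficients are those of `Pool.Agent.Lib.L1S.PQ.Stm`. Sections 1 (groups), 2 (matrices) and 3 (the general form `EstT` of the statement) are for variables;
section 4 has the size condition at a torus point and section 5 (`ArchDensity`) the statement for the quasi-split group `G(K)` of type `(P, Q)`, `R = L ⊗ ℝ`.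
-/

namespace Pool.Agent.Lib.L8.PR

open MeasureTheory Matrix NumberField IsDedekindDomain Pool.Agent.Lib.L1S.PQ

noncomputable section

set_option linter.unusedSectionVars false

/-! ## 1. Groups -/

section groups

variable {G : Type} [Group G] [MeasurableSpace G]

/-- The right convolution operator of the complex measure `w ρ`: `f ↦ (x ↦ ∫ f(x y) w(y) dρ(y))`. -/
def Cv (ρ : Measure G) (w f : G → ℂ) (x : G) : ℂ := ∫ y, f (x * y) * w y ∂ρ

variable [TopologicalSpace G]

/-- **Test measures**: `w ρ` is a complex measure on `G` which is supported in the compact set `S`, and `Λ` bounds the norm of its right convolution operator on `L²(G)`. -/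
structure Test (μ ρ : Measure G) (w : G → ℂ) (S : Set G) (Λ : ℝ) : Prop where
  fin : IsFiniteMeasure ρ
  cpt : IsCompact S
  supp : ρ Sᶜ = 0
  meas : Measurable w
  bdd : ∃ c : ℝ, ∀ y, ‖w y‖ ≤ c
  norm : ∀ f : G → ℂ, Measurable f → ∫⁻ x, ‖f x‖ₑ ^ 2 ∂μ ≠ ⊤ → ∫⁻ x, ‖Cv ρ w f x‖ₑ ^ 2 ∂μ ≤ ENNReal.ofReal (Λ ^ 2) * ∫⁻ x, ‖f x‖ₑ ^ 2 ∂μ

/-- **The inequality** at a point `x`: for orthonormal `F_1, …, F_M` in `L²(Γ \ G)` which are eigenfunctions of the convolution operator of `w ρ` with the eigenvalues `κ_l`: `∑_l |κ_l| ^ (2m) |W(F_l)|² ≤ X`, `W(F)` the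
Whittaker coefficient of `F` at `x` (mean value over `(Γ ∩ U) \ U`). -/
def BoundT (U Γ : Subgroup G) [MeasurableSpace U] (μ : Measure G) (ν : Measure U) (φ : G → ℂ) (ψ : U → ℂ) (x : G) (ρ : Measure G) (w : G → ℂ) (m : ℕ) (X : ℝ) : Prop :=
  ∀ D : Set G, IsFD Γ D μ → ∀ (M : ℕ) (F : Fin M → G → ℂ), (∀ l, Aut Γ μ D φ (F l)) → (∀ l k, ∫ x in D, star (F l x) * F k x ∂μ = if l = k then 1 else 0) →
    ∀ κ : Fin M → ℂ, (∀ l x, Cv ρ w (F l) x = κ l * F l x) → ∀ D' : Set U, IsFD (Γ.subgroupOf U) D' ν → ∑ l, ‖κ l‖ ^ (2 * m) * ‖Wh U ν D' ψ (F l) x‖ ^ 2 ≤ X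

end groups

/-! ## 2. Matrices -/

section matrices

variable {n : Type} [Fintype n] [DecidableEq n] {R : Type} [CommRing R]

/-- The row sums of the `k`-th compound matrix of `Y` (the matrix of the minors of order `k`) in the absolute value `nr` are at most `B` (every minor appears `k!` times in the sum). -/
def CB (nr : R → ℝ) (k : ℕ) (Y : Matrix n n R) (B : ℝ) : Prop := ∀ f : Fin k → n, ∑ g : Fin k → n, nr (Y.submatrix f g).det ≤ k.factorial * B

variable {V : Type} [Fintype V]

/-- The norm `|z| = ∏_y |z|_y ^ e_y` on `R`. -/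
def nm (nr : V → R → ℝ) (e : V → ℕ) (z : R) : ℝ := ∏ y, nr y z ^ e y

variable {G₀ : Subgroup (GL n R)} {G : Subgroup G₀}

/-- `B_(i,y)` bounds the row sums of the `k_i`-th compound matrices of `g` and `g⁻¹` at the place `y` for all `g ∈ S`. -/
def KB {J : Type} (nr : V → R → ℝ) (k : J → ℕ) (B : J → V → ℝ) (S : Set G) : Prop :=
  (∀ i y, 0 ≤ B i y) ∧ ∀ g ∈ S, ∀ i y, CB (nr y) (k i) g.1.1.1 (B i y) ∧ CB (nr y) (k i) g⁻¹.1.1.1 (B i y)

/-- `x ∈ U t Ω`. -/
def InT (U : Subgroup G) (Ω : Set (GL n R)) (t x : G) : Prop := ∃ u : U, ∃ ω ∈ Ω, x.1.1 = u.1.1.1 * t.1.1 * ω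

end matrices

/-! ## 3. The general form -/

section general

variable {n : Type} [Fintype n] [DecidableEq n] {K L : Type} [Field K] [NumberField K] [Field L] [NumberField L] [Algebra K L] (ht : n → ℤ) {A : Subgroup (GL n L)} {H : Subgroup A}
  {R : Type} [CommRing R] [TopologicalSpace R] [Algebra ℝ R] (p : L →+* R) {J : Type} [Fintype J] {V : Type} [Fintype V]

variable (K) in
/-- **The density theorem at the archimedean places for groups of matrices** `H ⊆ A` over `L` and `U ⊆ G ⊆ G₀` over `R` (`p : L → R`, `τ : H → G` the embeddings, `ht` the grading, `a_i` the places of the matrix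
entries which give the characters of `U`, `σ` the action of the Galois group on these places; `nr_y` the absolute values on `R`, `e_y` their multiplicities, `k_i` the orders of the minors). For `φ ∈ C_c(G)` and a compact
set `Ω` there is a constant `C` such that for all levels `𝔫`, `v`, `r`, `s` (`𝔫 ≠ 0` prime to `v`), nondegenerate characters `ψ` given by `θ`, diagonal matrices `t = diag(d)` in `G`, `x ∈ U t Ω`, test measures `w ρ`
with support in `S` and norm at most `Λ`, bounds `B` for `S` and all `m`, `X` for which `d` and the numbers `R_i = ∏_y B_(i,y) ^ (2 m e_y)` are admissible the inequality of `BoundT` holds with `C Λ ^ (2m) X`. -/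
def EstT {G₀ : Subgroup (GL n R)} {G : Subgroup G₀} (U : Subgroup G) (τ : H →* G) (a : J → n × n) (σ : (L ≃ₐ[K] L) → J → J) (nr : V → R → ℝ) (e : V → ℕ) (k : J → ℕ)
    (Adm : Ideal (𝓞 K) → HeightOneSpectrum (𝓞 K) → ℕ → ℕ → (n → R) → (J → ℝ) → ℝ → Prop) : Prop :=
  ∀ [MeasurableSpace G] [BorelSpace G] [MeasurableSpace U] [BorelSpace U] (μ : Measure G) [μ.IsHaarMeasure] (φ : G → ℂ), Continuous φ → HasCompactSupport φ → ∀ Ω : Set (GL n R), IsCompact Ω → ∃ C : ℝ,
    ∀ (v : HeightOneSpectrum (𝓞 K)) (𝔫 : Ideal (𝓞 K)), 𝔫 ≠ ⊥ → ¬𝔫 ≤ v.asIdeal → ∀ (r s : ℕ) (θ : J → (R →ₗ[ℝ] ℝ)), Gen U p (Gam 𝔫 v r s ht τ) a σ θ →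
    ∀ (t x : G) (d : n → R), t.1.1.1 = Matrix.diagonal d → InT U Ω t x → ∀ (ρ : Measure G) (w : G → ℂ) (S : Set G) (Λ : ℝ), Test μ ρ w S Λ → ∀ B : J → V → ℝ, KB nr k B S →
    ∀ (m : ℕ) (X : ℝ), Adm 𝔫 v r s d (fun i => ∏ y, B i y ^ (2 * m * e y)) X → ∀ (ν : Measure U) [ν.IsHaarMeasure],
    BoundT U (Gam 𝔫 v r s ht τ) μ ν φ (psi U a θ) x ρ w m (C * Λ ^ (2 * m) * X)

variable (K H) in
/-- `EstT` for the closure `G` of `H` in `GL(R)` (in the closure `G₀` of `A`) and its unipotent group `U`. -/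
def EstTCl [IsTopologicalRing R] (a : J → n × n) (σ : (L ≃ₐ[K] L) → J → J) (nr : V → R → ℝ) (e : V → ℕ) (k : J → ℕ)
    (Adm : Ideal (𝓞 K) → HeightOneSpectrum (𝓞 K) → ℕ → ℕ → (n → R) → (J → ℝ) → ℝ → Prop) : Prop :=
  EstT K ht p ((Uni ht (Cl (GeneralLinearGroup.map p) A)).subgroupOf (Cl (em (GeneralLinearGroup.map p) A) H)) (em (em (GeneralLinearGroup.map p) A) H) a σ nr e k Adm

end general

/-! ## 4. The size condition -/

section roots

variable {ι M N : Type} [Fintype ι] [DecidableEq ι] [AddCommGroup M] [Module ℚ M] [AddCommGroup N] [Module ℚ N]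
  {P : RootPairing ι ℚ M N} [P.IsCrystallographic] [P.IsRootSystem] (b : P.Base)

/-- **The size condition** for the numbers `R_i`, with the level `N` and `E_i` for the torus element: for `w Φ_i = - Φ_j`: `R_i ≤ N ^ |Φ_i| E_i E_j`, or for some simple root `α_l` and `T ≥ m_l(β)` for all `β`:
`R_i ^ T ≤ N ^ P (E_i E_j) ^ T`, `P` the sum of the coefficients `m_l` of the roots in `Φ_i` and in `Φ_j`. -/
def SzT (N : ℝ) (E Rb : b.support → ℝ) : Prop :=
  ∀ i j, Opp b i j → Rb i ≤ N ^ (Phi b i).card * (E i * E j) ∨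
    ∃ (l : b.support) (T : ℕ), (∀ β, mc b l β ≤ T) ∧ Rb i ^ T ≤ N ^ S2 b i j (mc b l) (mc b l) * (E i * E j) ^ T

variable {R : Type} [CommRing R] {V : Type} [Fintype V] {K : Type} (L : Type) [Field K] [NumberField K] [Field L] [Algebra K L]

/-- **The admissible data** (`N = N(𝔫)`, `q = N(v)` the norms over `K`, `|z|` the norm on `R`, `f = [L : K]`): `d` has the entries `a_β` at the roots and `1` at the zero weights, the numbers `R_i` satisfy the size condition
with the level `(N q ^ (r + s)) ^ f` and `E_i = ∏_{β ∈ Φ_i} |a_β|`, and `X = (∏_{β > 0} |a_β|) ^ (1/f) / N ^ #{β > 0}`. -/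
def AdmT (nr : V → R → ℝ) (e : V → ℕ) (𝔫 : Ideal (𝓞 K)) (v : HeightOneSpectrum (𝓞 K)) (r s : ℕ) (d : b.support ⊕ ι → R) (Rb : b.support → ℝ) (X : ℝ) : Prop :=
  ∃ a : ι → R, d = Sum.elim (fun _ => 1) a ∧
    SzT b (((Ideal.absNorm 𝔫 : ℝ) * (Ideal.absNorm v.asIdeal : ℝ) ^ (r + s)) ^ Module.finrank K L) (fun i => ∏ β ∈ Phi b i, nm nr e (a β)) Rb ∧
    X = (∏ β with 0 < b.height β, nm nr e (a β)) ^ ((Module.finrank K L : ℝ)⁻¹) / (Ideal.absNorm 𝔫 : ℝ) ^ (Finset.univ.filter fun β => 0 < b.height β).card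

end roots

/-! ## 5. The statement -/

section statement

variable {ι M N : Type} [Fintype ι] [DecidableEq ι] [AddCommGroup M] [Module ℚ M] [AddCommGroup N] [Module ℚ N]
  {P : RootPairing ι ℚ M N} [P.IsCrystallographic] {b : P.Base} {K L : Type} [Field K] [NumberField K] [Field L] [NumberField L] [Algebra K L]

/-- **The density theorem at the archimedean places** for the globally generic spectrum of the quasi-split simple group of type `(P, Q)` over `K`. The entry of `u ∈ U` in the row of the zero weight of `α_i` and the column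
of the root `-α_i` is the coordinate of `u` at `α_i`; the absolute values on `L ⊗ ℝ` are those of the archimedean places of `L` and the orders of the minors are the numbers `|Φ_i|`. -/
def ArchDensity [P.IsRootSystem] (Q : QS b K L) : Prop :=
  EstTCl K (Sum.elim (fun _ => 0) b.height) (GQ Q) (mixedEmbedding L) (fun i => (Sum.inl i, Sum.inr (P.reflectionPerm i i))) (fun s => sp (Q.da s)) (fun w z => mixedEmbedding.normAtPlace w z)
    (fun w : InfinitePlace L => w.mult) (fun i => (Phi b i).card) (AdmT b L (fun w z => mixedEmbedding.normAtPlace w z) (fun w : InfinitePlace L => w.mult))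

end statement

end

end Pool.Agent.Lib.L8.PR
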